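import Mathlib
import Pool.Agent.Helper316.Cross

set_option autoImplicit false

namespace Pool.Agent.Results.MP_631557_ag.Fused

open MvPolynomial

/-- Two Keller maps `F`, `G` of the complex plane which agree at every point of the coordinate cross
are equal if (1) `p ∘ F = p ∘ G` for some polynomial `p` such that `p ∘ F` is not constant on the cross,
or (2) some nontrivial linear combination of the two components is the same for `F` and `G`. -/
theorem result :
    ∀ F₁ F₂ G₁ G₂ : MvPolynomial (Fin 2) ℂ,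
      MvPolynomial.pderiv 0 F₁ * MvPolynomial.pderiv 1 F₂
          - MvPolynomial.pderiv 1 F₁ * MvPolynomial.pderiv 0 F₂ = 1 →
      MvPolynomial.pderiv 0 G₁ * MvPolynomial.pderiv 1 G₂
          - MvPolynomial.pderiv 1 G₁ * MvPolynomial.pderiv 0 G₂ = 1 →
      (∀ v : Fin 2 → ℂ, v 0 * v 1 = 0 →
          MvPolynomial.eval v F₁ = MvPolynomial.eval v G₁ ∧
          MvPolynomial.eval v F₂ = MvPolynomial.eval v G₂) →
      ((∃ p : MvPolynomial (Fin 2) ℂ,
          MvPolynomial.aeval ![F₁, F₂] p = MvPolynomial.aeval ![G₁, G₂] p ∧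
          ∃ v w : Fin 2 → ℂ, v 0 * v 1 = 0 ∧ w 0 * w 1 = 0 ∧
            MvPolynomial.eval v (MvPolynomial.aeval ![F₁, F₂] p) ≠
              MvPolynomial.eval w (MvPolynomial.aeval ![F₁, F₂] p)) ∨
        (∃ a b : ℂ, ¬ (a = 0 ∧ b = 0) ∧ C a * F₁ + C b * F₂ = C a * G₁ + C b * G₂)) →
      F₁ = G₁ ∧ F₂ = G₂ := by
  intro F₁ F₂ G₁ G₂ hF hG hZ h
  rcases h with ⟨p, hp, v, w, hv, hw, hvw⟩ | ⟨a, b, hab, h⟩
  · exact Pool.Agent.Helper316.Cross.fused F₁ F₂ G₁ G₂ hF hG hZ p hp v w hv hw hvw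
  · exact Pool.Agent.Helper316.Cross.common F₁ F₂ G₁ G₂ hF hG hZ a b hab h

end Pool.Agent.Results.MP_631557_ag.Fused
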